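import Mathlib

/-!
A separated descending filtration of a rational vector space gives a total positive cone that
does not see perturbations by terms of higher order.
-/

set_option autoImplicit false

namespace Pool.Agent.MP_f7bb97_al.H87

theorem exists_cone {V : Type} [AddCommGroup V] [Module ℚ V] (J : ℕ → Submodule ℚ V)
    (h0 : J 0 = ⊤) (hanti : Antitone J) (hsep : ∀ v, (∀ n, v ∈ J n) → v = 0) :
    ∃ Q : Set V, (∀ a ∈ Q, ∀ b ∈ Q, a + b ∈ Q) ∧ (0 : V) ∉ Q ∧
      (∀ a, a ≠ 0 → a ∈ Q ∨ -a ∈ Q) ∧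
      (∀ v ∈ Q, ∀ w, (∀ n, v ∈ J n → w ∈ J (n + 1)) → v + w ∈ Q) := by
  classical
  obtain ⟨inst, hwf⟩ := exists_wellFoundedLT (V →ₗ[ℚ] ℚ)
  let I := ℕ ×ₗ (V →ₗ[ℚ] ℚ)
  let f : I → (V →ₗ[ℚ] ℚ) := fun i =>
    if J ((ofLex i).1 + 1) ≤ LinearMap.ker (ofLex i).2 then (ofLex i).2 else 0
  have hf : ∀ i : I, ∀ w ∈ J ((ofLex i).1 + 1), f i w = 0 := by
    intro i w hw
    by_cases h : J ((ofLex i).1 + 1) ≤ LinearMap.ker (ofLex i).2
    · simp only [f, if_pos h]; exact h hw
    · simp only [f, if_neg h]; rfl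
  have hex : ∀ (n : ℕ) (v : V), v ∉ J (n + 1) → ∃ i : I, (ofLex i).1 = n ∧ f i v ≠ 0 := by
    intro n v hv
    obtain ⟨ψ, h1, h2⟩ := Submodule.exists_le_ker_of_notMem hv
    refine ⟨toLex (n, ψ), rfl, ?_⟩
    have : J ((ofLex (toLex (n, ψ))).1 + 1) ≤ LinearMap.ker (ofLex (toLex (n, ψ))).2 := h2
    simp only [f, if_pos this]
    exact h1
  refine ⟨{v | ∃ i : I, 0 < f i v ∧ ∀ j < i, f j v = 0}, ?_, ?_, ?_, ?_⟩
  · rintro a ⟨i, hi, hi'⟩ b ⟨k, hk, hk'⟩
    rcases lt_trichotomy i k with h | h | h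
    · refine ⟨i, ?_, fun j hj => ?_⟩
      · rw [map_add, hk' i h]; simpa using hi
      · rw [map_add, hi' j hj, hk' j (hj.trans h)]; simp
    · subst h
      refine ⟨i, ?_, fun j hj => ?_⟩
      · rw [map_add]; positivity
      · rw [map_add, hi' j hj, hk' j hj]; simp
    · refine ⟨k, ?_, fun j hj => ?_⟩
      · rw [map_add, hi' k h]; simpa using hk
      · rw [map_add, hk' j hj, hi' j (hj.trans h)]; simp
  · rintro ⟨i, hi, -⟩
    simp at hi
  · intro a ha
    have hne : ({i : I | f i a ≠ 0}).Nonempty := by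
      by_contra hcon
      apply ha
      apply hsep
      intro n
      by_contra hn
      have hn' : a ∉ J (n + 1) := fun h => hn (hanti (Nat.le_succ n) h)
      obtain ⟨i, -, hi⟩ := hex n a hn'
      exact hcon ⟨i, hi⟩
    obtain ⟨i, hi, hmin⟩ := (wellFounded_lt (α := I)).has_min _ hne
    have hlt : ∀ j < i, f j a = 0 := fun j hj => by
      by_contra h
      exact hmin j h hj
    rcases lt_or_gt_of_ne hi with h | h
    · right
      refine ⟨i, ?_, fun j hj => ?_⟩
      · rw [map_neg]; linarith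
      · rw [map_neg, hlt j hj]; simp
    · left
      exact ⟨i, h, hlt⟩
  · rintro v ⟨i, hi, hi'⟩ w hw
    have hv : v ∈ J (ofLex i).1 := by
      rcases hn : (ofLex i).1 with _ | n
      · rw [h0]; trivial
      · by_contra hcon
        obtain ⟨j, hj1, hj2⟩ := hex n v hcon
        apply hj2
        apply hi'
        rw [Prod.Lex.lt_iff]
        left
        omega
    have hw' := hw _ hv
    have hz : ∀ j ≤ i, f j w = 0 := by
      intro j hj
      apply hf
      have : (ofLex j).1 ≤ (ofLex i).1 := by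
        rw [Prod.Lex.le_iff] at hj
        rcases hj with h | h
        · exact h.le
        · exact h.1.le
      exact hanti (Nat.succ_le_succ this) hw'
    refine ⟨i, ?_, fun j hj => ?_⟩
    · rw [map_add, hz i le_rfl]; simpa using hi
    · rw [map_add, hz j hj.le, hi' j hj]; simp

end Pool.Agent.MP_f7bb97_al.H87
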