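import Mathlib

/-!
The Golod-Shafarevich estimate, in dual form, for the free algebra on eight letters.
-/

set_option autoImplicit false
set_option linter.unusedSimpArgs false

namespace Pool.Agent.MP_f7bb97_al.H87

noncomputable section

/-- Words in eight letters. -/
abbrev W : Type := FreeMonoid (Fin 8)
/-- The free algebra. -/
abbrev T : Type := MonoidAlgebra ℚ W

/-- A word as an element of the free algebra. -/
def wd (w : W) : T := MonoidAlgebra.of ℚ W w

theorem wd_mul (a b : W) : wd (a * b) = wd a * wd b := map_mul _ _ _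
theorem wd_one : wd 1 = 1 := map_one _

/-- The basis of words. -/
def bas : Module.Basis W ℚ T := MonoidAlgebra.basis W ℚ

theorem bas_apply (w : W) : bas w = wd w := rfl

theorem T_ind {P : T → Prop} (t : T) (h1 : ∀ w, P (wd w)) (h2 : ∀ a b, P a → P b → P (a + b))
    (h3 : ∀ (c : ℚ) a, P a → P (c • a)) : P t :=
  MonoidAlgebra.induction_on t h1 h2 h3

theorem lin_ext {M : Type} [AddCommGroup M] [Module ℚ M] {f g : T →ₗ[ℚ] M}
    (h : ∀ w, f (wd w) = g (wd w)) : f = g := bas.ext h

/-- The linear map with given values on words. -/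
def onWords {M : Type} [AddCommGroup M] [Module ℚ M] (f : W → M) : T →ₗ[ℚ] M := bas.constr ℚ f

theorem onWords_wd {M : Type} [AddCommGroup M] [Module ℚ M] (f : W → M) (w : W) :
    onWords f (wd w) = f w := by
  rw [← bas_apply]; exact bas.constr_basis ℚ f w

/-- The span of the words of length at least `n`. -/
def A (n : ℕ) : Submodule ℚ T := Submodule.span ℚ (wd '' {w | n ≤ w.length})

theorem wd_mem_A {n : ℕ} {w : W} (h : n ≤ w.length) : wd w ∈ A n :=
  Submodule.subset_span ⟨w, h, rfl⟩

theorem A_ind {n : ℕ} {P : T → Prop} {t : T} (ht : t ∈ A n)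
    (h1 : ∀ w : W, n ≤ w.length → P (wd w)) (h0 : P 0) (h2 : ∀ a b, P a → P b → P (a + b))
    (h3 : ∀ (c : ℚ) a, P a → P (c • a)) : P t := by
  induction ht using Submodule.span_induction with
  | mem x hx => obtain ⟨w, hw, rfl⟩ := hx; exact h1 w hw
  | zero => exact h0
  | add x y _ _ hx hy => exact h2 _ _ hx hy
  | smul c x _ hx => exact h3 _ _ hx

theorem mem_A_zero (t : T) : t ∈ A 0 :=
  T_ind t (fun _ => wd_mem_A (Nat.zero_le _)) (fun _ _ => (A 0).add_mem)
    (fun c _ => (A 0).smul_mem c)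

theorem A_anti : Antitone A := fun _ _ h =>
  Submodule.span_mono (Set.image_mono fun _ hw => le_trans h hw)

theorem A_mul {i j : ℕ} {a b : T} (ha : a ∈ A i) (hb : b ∈ A j) : a * b ∈ A (i + j) := by
  refine A_ind (P := fun a => a * b ∈ A (i + j)) ha (fun u hu => ?_) (by simp)
    (fun x y hx hy => by rw [add_mul]; exact (A _).add_mem hx hy)
    (fun c x hx => by rw [smul_mul_assoc]; exact (A _).smul_mem c hx)
  refine A_ind (P := fun b => wd u * b ∈ A (i + j)) hb (fun v hv => ?_) (by simp)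
    (fun x y hx hy => by rw [mul_add]; exact (A _).add_mem hx hy)
    (fun c x hx => by rw [mul_smul_comm]; exact (A _).smul_mem c hx)
  rw [← wd_mul]
  apply wd_mem_A
  rw [FreeMonoid.length_mul]
  omega

/-- Functionals concentrated in degree `n`. -/
def Supp (n : ℕ) (φ : T →ₗ[ℚ] ℚ) : Prop := ∀ w : W, w.length ≠ n → φ (wd w) = 0

theorem Supp.vanish {n : ℕ} {φ : T →ₗ[ℚ] ℚ} (h : Supp n φ) {t : T} (ht : t ∈ A (n + 1)) :
    φ t = 0 :=
  A_ind (P := fun t => φ t = 0) ht (fun w hw => h w (by omega)) (by simp)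
    (fun x y hx hy => by simp [hx, hy]) (fun c x hx => by simp [hx])

/-- Projection on the span of the words whose length satisfies `p`. -/
def proj (p : ℕ → Prop) [DecidablePred p] : T →ₗ[ℚ] T :=
  onWords (fun w => if p w.length then wd w else 0)

theorem proj_wd (p : ℕ → Prop) [DecidablePred p] (w : W) :
    proj p (wd w) = if p w.length then wd w else 0 := onWords_wd _ _

theorem Supp.mul_proj {n : ℕ} {φ : T →ₗ[ℚ] ℚ} (h : Supp n φ) (p : ℕ → Prop) [DecidablePred p]
    (u : W) (y : T) :
    φ (wd u * proj p y) = if u.length ≤ n ∧ p (n - u.length) then φ (wd u * y) else 0 := by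
  induction y using T_ind with
  | h1 w =>
    rw [proj_wd]
    by_cases hw : u.length + w.length = n
    · have : n - u.length = w.length := by omega
      rw [this]
      by_cases hp : p w.length
      · rw [if_pos hp, if_pos ⟨by omega, hp⟩]
      · rw [if_neg hp, if_neg (fun h => hp h.2)]; simp
    · have h0 : φ (wd u * wd w) = 0 := by
        rw [← wd_mul]; apply h; rwa [FreeMonoid.length_mul]
      rw [h0]
      split_ifs <;> simp [h0]
  | h2 a b ha hb =>
    rw [map_add, mul_add, map_add, ha, hb, mul_add, map_add]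
    split_ifs <;> simp
  | h3 c a ha =>
    rw [map_smul, mul_smul_comm, map_smul, ha, mul_smul_comm, map_smul]
    split_ifs <;> simp

variable (rel : ℕ → T)

/-- Functionals of degree `n` that kill the homogeneous ideal generated by the relations. -/
def E (n : ℕ) : Submodule ℚ (T →ₗ[ℚ] ℚ) where
  carrier := {φ | Supp n φ ∧ ∀ s a b, φ (a * rel s * b) = 0}
  add_mem' := by
    rintro φ ψ ⟨h1, h2⟩ ⟨k1, k2⟩
    exact ⟨fun w hw => by simp [h1 w hw, k1 w hw], fun s a b => by simp [h2 s a b, k2 s a b]⟩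
  zero_mem' := ⟨fun _ _ => rfl, fun _ _ _ => rfl⟩
  smul_mem' := by
    rintro c φ ⟨h1, h2⟩
    exact ⟨fun w hw => by simp [h1 w hw], fun s a b => by simp [h2 s a b]⟩

theorem mem_E {n : ℕ} {φ : T →ₗ[ℚ] ℚ} :
    φ ∈ E rel n ↔ Supp n φ ∧ ∀ s a b, φ (a * rel s * b) = 0 := Iff.rfl

instance finite_E (n : ℕ) : FiniteDimensional ℚ (E rel n) := by
  have : Finite {w : W // w.length = n} := by
    have h := List.finite_length_eq (Fin 8) n
    exact h.to_subtype
  let f : E rel n →ₗ[ℚ] ({w : W // w.length = n} → ℚ) :=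
    { toFun := fun φ w => φ.1 (wd w.1)
      map_add' := fun _ _ => rfl
      map_smul' := fun _ _ => rfl }
  refine Module.Finite.of_injective f ?_
  rw [injective_iff_map_eq_zero]
  intro φ hφ
  apply Subtype.ext
  apply lin_ext
  intro w
  by_cases hw : w.length = n
  · exact congrFun hφ ⟨w, hw⟩
  · exact φ.2.1 w hw

/-- The letter `i`. -/
def X (i : Fin 8) : T := wd (FreeMonoid.of i)

/-- The value on a word of the functional glued from eight functionals. -/
def glueW (φ : Fin 8 → (T →ₗ[ℚ] ℚ)) : List (Fin 8) → ℚ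
  | [] => 0
  | i :: l => φ i (wd (FreeMonoid.ofList l))

/-- The functional glued from eight functionals along the first letter. -/
def glue : (Fin 8 → (T →ₗ[ℚ] ℚ)) →ₗ[ℚ] (T →ₗ[ℚ] ℚ) where
  toFun φ := onWords (fun w => glueW φ w.toList)
  map_add' φ ψ := by
    apply lin_ext
    intro w
    simp only [LinearMap.add_apply, onWords_wd]
    cases w.toList <;> simp [glueW]
  map_smul' c φ := by
    apply lin_ext
    intro w
    simp only [LinearMap.smul_apply, onWords_wd]
    cases w.toList <;> simp [glueW]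

theorem glue_one (φ : Fin 8 → (T →ₗ[ℚ] ℚ)) : glue φ (wd 1) = 0 := onWords_wd _ _

theorem glue_X_mul (φ : Fin 8 → (T →ₗ[ℚ] ℚ)) (i : Fin 8) (t : T) :
    glue φ (X i * t) = φ i t := by
  induction t using T_ind with
  | h1 w =>
    rw [X, ← wd_mul]
    exact onWords_wd _ _
  | h2 a b ha hb => rw [mul_add, map_add, ha, hb, map_add]
  | h3 c a ha => rw [mul_smul_comm, map_smul, ha, map_smul]

theorem word_cases (w : W) : w = 1 ∨ ∃ (i : Fin 8) (u : W), w = FreeMonoid.of i * u := by
  induction w using FreeMonoid.casesOn with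
  | one => exact Or.inl rfl
  | of_mul i u => exact Or.inr ⟨i, u, rfl⟩

theorem glue_supp {n : ℕ} {φ : Fin 8 → (T →ₗ[ℚ] ℚ)} (h : ∀ i, Supp n (φ i)) :
    Supp (n + 1) (glue φ) := by
  intro w hw
  rcases word_cases w with rfl | ⟨i, u, rfl⟩
  · exact glue_one φ
  · rw [wd_mul, ← X, glue_X_mul]
    apply h
    rw [FreeMonoid.length_mul, FreeMonoid.length_of] at hw
    omega

variable {rel}

theorem glue_rel_mem (hrel : ∀ s, rel s ∈ A (s - 8 + 2)) {n : ℕ} {φ : Fin 8 → (T →ₗ[ℚ] ℚ)}
    (h : ∀ i, φ i ∈ E rel n) (s j : ℕ) :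
    (glue φ) ∘ₗ (LinearMap.mulLeft ℚ (rel s)) ∘ₗ proj (· = j) ∈ E rel j := by
  refine ⟨fun w hw => ?_, fun s' a b => ?_⟩
  · simp [proj_wd, hw]
  · simp only [LinearMap.comp_apply, LinearMap.mulLeft_apply]
    have h1 : rel s ∈ A 1 := A_anti (by omega) (hrel s)
    refine A_ind (P := fun t => glue φ (t * proj (· = j) (a * rel s' * b)) = 0) h1
      (fun w hw => ?_) (by simp) (fun x y hx hy => by simp [add_mul, hx, hy])
      (fun c x hx => by simp [hx])
    rcases word_cases w with rfl | ⟨i, u, rfl⟩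
    · simp at hw
    · rw [wd_mul, ← X, mul_assoc, glue_X_mul, (h i).1.mul_proj]
      split_ifs
      · have := (h i).2 s' (wd u * a) b
        simpa [mul_assoc] using this
      · rfl

theorem glue_mem (hrel : ∀ s, rel s ∈ A (s - 8 + 2)) {n : ℕ} {φ : Fin 8 → (T →ₗ[ℚ] ℚ)}
    (h : ∀ i, φ i ∈ E rel n)
    (hz : ∀ j < n, ∀ s < n - j + 8,
      (glue φ) ∘ₗ (LinearMap.mulLeft ℚ (rel s)) ∘ₗ proj (· = j) = 0) :
    glue φ ∈ E rel (n + 1) := by
  have hs : Supp (n + 1) (glue φ) := glue_supp fun i => (h i).1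
  refine ⟨hs, fun s a b => ?_⟩
  induction a using T_ind with
  | h1 w =>
    rcases word_cases w with rfl | ⟨i, u, rfl⟩
    · rw [wd_one, one_mul]
      induction b using T_ind with
      | h1 v =>
        by_cases hc : v.length < n ∧ s < n - v.length + 8
        · have := LinearMap.congr_fun (hz _ hc.1 s hc.2) (wd v)
          simpa [proj_wd] using this
        · apply hs.vanish
          refine A_anti ?_ (A_mul (hrel s) (wd_mem_A (le_refl v.length)))
          omega
      | h2 x y hx hy => rw [mul_add, map_add, hx, hy, add_zero]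
      | h3 c x hx => rw [mul_smul_comm, map_smul, hx, smul_zero]
    · rw [wd_mul, ← X, mul_assoc, mul_assoc, glue_X_mul, ← mul_assoc]
      exact (h i).2 s _ _
  | h2 x y hx hy => rw [add_mul, add_mul, map_add, hx, hy, add_zero]
  | h3 c x hx => rw [smul_mul_assoc, smul_mul_assoc, map_smul, hx, smul_zero]

theorem gs_ineq (hrel : ∀ s, rel s ∈ A (s - 8 + 2)) (n : ℕ) :
    8 * Module.finrank ℚ (E rel n) ≤ Module.finrank ℚ (E rel (n + 1)) +
      ∑ j ∈ Finset.range n, (n - j + 8) * Module.finrank ℚ (E rel j) := by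
  let inc : (Fin 8 → E rel n) →ₗ[ℚ] (Fin 8 → (T →ₗ[ℚ] ℚ)) :=
    { toFun := fun φ i => (φ i).1
      map_add' := fun _ _ => rfl
      map_smul' := fun _ _ => rfl }
  let Φ : (Fin 8 → E rel n) →ₗ[ℚ] ((j : Fin n) → Fin (n - j + 8) → E rel j) :=
    { toFun := fun φ j s => ⟨(glue (inc φ)) ∘ₗ (LinearMap.mulLeft ℚ (rel s)) ∘ₗ proj (· = j.1),
        glue_rel_mem hrel (fun i => (φ i).2) s j⟩
      map_add' := fun φ ψ => by
        funext j s
        apply Subtype.ext
        simp [LinearMap.add_comp]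
      map_smul' := fun c φ => by
        funext j s
        apply Subtype.ext
        simp [LinearMap.smul_comp] }
  let K : LinearMap.ker Φ →ₗ[ℚ] E rel (n + 1) :=
    LinearMap.codRestrict (E rel (n + 1)) (glue ∘ₗ inc ∘ₗ (LinearMap.ker Φ).subtype) (by
      rintro ⟨φ, hφ⟩
      apply glue_mem hrel (fun i => (φ i).2)
      intro j hj s hs
      have := congrFun (congrFun (LinearMap.mem_ker.mp hφ) ⟨j, hj⟩) ⟨s, hs⟩
      exact congrArg Subtype.val this)
  have hK : Function.Injective K := by
    rw [injective_iff_map_eq_zero]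
    rintro ⟨φ, hφ⟩ h0
    have h1 : glue (inc φ) = 0 := congrArg Subtype.val h0
    apply Subtype.ext
    funext i
    apply Subtype.ext
    apply LinearMap.ext
    intro t
    have := glue_X_mul (inc φ) i t
    rw [h1] at this
    exact this.symm
  have e1 := LinearMap.finrank_range_add_finrank_ker Φ
  have e2 : Module.finrank ℚ (LinearMap.ker Φ) ≤ Module.finrank ℚ (E rel (n + 1)) :=
    LinearMap.finrank_le_finrank_of_injective hK
  have e3 : Module.finrank ℚ (LinearMap.range Φ) ≤
      Module.finrank ℚ ((j : Fin n) → Fin (n - j + 8) → E rel j) := Submodule.finrank_le _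
  have e4 : Module.finrank ℚ (Fin 8 → E rel n) = 8 * Module.finrank ℚ (E rel n) := by
    rw [Module.finrank_pi_fintype]; simp
  have e5 : Module.finrank ℚ ((j : Fin n) → Fin (n - j + 8) → E rel j) =
      ∑ j ∈ Finset.range n, (n - j + 8) * Module.finrank ℚ (E rel j) := by
    rw [Module.finrank_pi_fintype, Finset.sum_range]
    apply Finset.sum_congr rfl
    intro j _
    rw [Module.finrank_pi_fintype]; simp
  omega

theorem finrank_E_zero (hrel : ∀ s, rel s ∈ A (s - 8 + 2)) :
    0 < Module.finrank ℚ (E rel 0) := by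
  let φ : T →ₗ[ℚ] ℚ := onWords (fun w => if w.length = 0 then 1 else 0)
  have hs : Supp 0 φ := fun w hw => by simp [φ, onWords_wd, hw]
  have hφ : φ ∈ E rel 0 := by
    refine ⟨hs, fun s a b => hs.vanish ?_⟩
    refine A_anti ?_ (A_mul (A_mul (mem_A_zero a) (hrel s)) (mem_A_zero b))
    omega
  rw [Module.finrank_pos_iff_exists_ne_zero]
  refine ⟨⟨φ, hφ⟩, fun h => ?_⟩
  have h1 : φ = 0 := congrArg Subtype.val h
  have := LinearMap.congr_fun h1 (wd 1)
  simp [φ, onWords_wd] at this

theorem growth (b : ℕ → ℕ) (h0 : 0 < b 0)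
    (h : ∀ n, 8 * b n ≤ b (n + 1) + ∑ j ∈ Finset.range n, (n - j + 8) * b j) (n : ℕ) :
    0 < b n ∧ 2 * ∑ j ∈ Finset.range n, b j ≤ b n ∧
      4 * ∑ j ∈ Finset.range n, (n - j) * b j ≤ 3 * b n := by
  induction n with
  | zero => simp [h0]
  | succ n ih =>
    obtain ⟨i1, i2, i3⟩ := ih
    have h1 := h n
    have e1 : ∑ j ∈ Finset.range n, (n - j + 8) * b j =
        ∑ j ∈ Finset.range n, (n - j) * b j + 8 * ∑ j ∈ Finset.range n, b j := by
      rw [Finset.mul_sum, ← Finset.sum_add_distrib]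
      apply Finset.sum_congr rfl
      intro j _
      ring
    have e2 : ∑ j ∈ Finset.range (n + 1), (n + 1 - j) * b j =
        ∑ j ∈ Finset.range n, (n - j) * b j + ∑ j ∈ Finset.range n, b j + b n := by
      rw [Finset.sum_range_succ, ← Finset.sum_add_distrib]
      congr 1
      · apply Finset.sum_congr rfl
        intro j hj
        have : n + 1 - j = n - j + 1 := by
          have := Finset.mem_range.mp hj
          omega
        rw [this]; ring
      · simp
    rw [e2, Finset.sum_range_succ]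
    rw [e1] at h1
    omega

theorem exists_functional (hrel : ∀ s, rel s ∈ A (s - 8 + 2)) (n : ℕ) :
    ∃ φ ∈ E rel n, ∃ w : W, w.length = n ∧ φ (wd w) ≠ 0 := by
  have := (growth (fun n => Module.finrank ℚ (E rel n)) (finrank_E_zero hrel) (gs_ineq hrel) n).1
  rw [Module.finrank_pos_iff_exists_ne_zero] at this
  obtain ⟨⟨φ, hφ⟩, hne⟩ := this
  refine ⟨φ, hφ, ?_⟩
  by_contra hcon
  push Not at hcon
  apply hne
  apply Subtype.ext
  apply lin_ext
  intro w
  by_cases hw : w.length = n
  · exact hcon w hw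
  · exact hφ.1 w hw

end

end Pool.Agent.MP_f7bb97_al.H87
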