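import Mathlib
import Pool.Agent.MP_f7bb97_al.H87.Cone

/-!
The group of triangular matrices with rows (1, m, z), (0, h, l), (0, 0, 1), the corner entry
being read through a linear functional.
-/

set_option autoImplicit false
set_option linter.unusedSectionVars false
set_option linter.unusedSimpArgs false

namespace Pool.Agent.MP_f7bb97_al.H87

variable {S : Type} [Ring S] [Algebra ℚ S]

/-- Triangular matrices over `S` with middle entry in `H` and corner entry in the rationals. -/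
@[ext]
structure Tri (H : Subgroup Sˣ) (φ : S →ₗ[ℚ] ℚ) : Type where
  h : H
  m : S
  l : S
  z : ℚ

namespace Tri

variable {H : Subgroup Sˣ} {φ : S →ₗ[ℚ] ℚ}

/-- The value in `S` of an element of `H`. -/
def val (x : H) : S := ((x : Sˣ) : S)

@[simp] theorem val_mul (x y : H) : val (x * y) = val x * val y := by simp [val]
@[simp] theorem val_one : val (1 : H) = 1 := by simp [val]
@[simp] theorem val_inv_mul (x : H) : val x⁻¹ * val x = 1 := by simp [val]
@[simp] theorem val_mul_inv (x : H) : val x * val x⁻¹ = 1 := by simp [val]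
@[simp] theorem val_inv_mul_cancel (x : H) (s : S) : val x⁻¹ * (val x * s) = s := by
  rw [← mul_assoc, val_inv_mul, one_mul]
@[simp] theorem val_mul_inv_cancel (x : H) (s : S) : val x * (val x⁻¹ * s) = s := by
  rw [← mul_assoc, val_mul_inv, one_mul]
theorem val_inj {x : H} (h : val x = 1) : x = 1 := by
  apply Subtype.ext
  apply Units.ext
  simpa [val] using h

instance : Mul (Tri H φ) :=
  ⟨fun a b => ⟨a.h * b.h, b.m + a.m * val b.h, a.l + val a.h * b.l, a.z + b.z + φ (a.m * b.l)⟩⟩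
instance : One (Tri H φ) := ⟨⟨1, 0, 0, 0⟩⟩
instance : Inv (Tri H φ) :=
  ⟨fun a => ⟨a.h⁻¹, -(a.m * val a.h⁻¹), -(val a.h⁻¹ * a.l), -a.z + φ (a.m * (val a.h⁻¹ * a.l))⟩⟩

@[simp] theorem mul_h (a b : Tri H φ) : (a * b).h = a.h * b.h := rfl
@[simp] theorem mul_m (a b : Tri H φ) : (a * b).m = b.m + a.m * val b.h := rfl
@[simp] theorem mul_l (a b : Tri H φ) : (a * b).l = a.l + val a.h * b.l := rfl
@[simp] theorem mul_z (a b : Tri H φ) : (a * b).z = a.z + b.z + φ (a.m * b.l) := rfl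
@[simp] theorem one_h : (1 : Tri H φ).h = 1 := rfl
@[simp] theorem one_m : (1 : Tri H φ).m = 0 := rfl
@[simp] theorem one_l : (1 : Tri H φ).l = 0 := rfl
@[simp] theorem one_z : (1 : Tri H φ).z = 0 := rfl
@[simp] theorem inv_h (a : Tri H φ) : (a⁻¹).h = a.h⁻¹ := rfl
@[simp] theorem inv_m (a : Tri H φ) : (a⁻¹).m = -(a.m * val a.h⁻¹) := rfl
@[simp] theorem inv_l (a : Tri H φ) : (a⁻¹).l = -(val a.h⁻¹ * a.l) := rfl
@[simp] theorem inv_z (a : Tri H φ) : (a⁻¹).z = -a.z + φ (a.m * (val a.h⁻¹ * a.l)) := rfl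

instance : Group (Tri H φ) :=
  Group.ofLeftAxioms
    (fun a b c => by
      apply Tri.ext
      · simp [mul_assoc]
      · simp [add_mul, mul_assoc, add_assoc]
      · simp [mul_add, mul_assoc, add_assoc]
      · simp only [mul_z, mul_m, mul_l, add_mul, mul_add, map_add, mul_assoc]; ring)
    (fun a => by apply Tri.ext <;> simp)
    (fun a => by apply Tri.ext <;> simp [mul_assoc])

/-- One step of the Engel iteration. -/
def step {G : Type} [Group G] (y : G) : G → G := fun z => z⁻¹ * y⁻¹ * z * y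

theorem step_h (y x : Tri H φ) : (step y x).h = step y.h x.h := rfl

theorem iterate_h (y : Tri H φ) (n : ℕ) (x : Tri H φ) :
    ((step y)^[n] x).h = (step y.h)^[n] x.h := by
  induction n generalizing x with
  | zero => rfl
  | succ n ih => rw [Function.iterate_succ_apply, Function.iterate_succ_apply, ih, step_h]

theorem step_of_h (y x : Tri H φ) (hx : x.h = 1) :
    (step y x).h = 1 ∧ (step y x).m = x.m * (val y.h - 1) ∧
      (step y x).l = (val y.h⁻¹ - 1) * x.l := by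
  refine ⟨?_, ?_, ?_⟩
  · simp [step, hx]
  · simp only [step, mul_m, inv_m, mul_h, inv_h, hx, inv_one, val_one, mul_one, add_mul, neg_mul,
      mul_sub]
    simp only [mul_assoc, val_inv_mul, mul_one]
    abel
  · simp only [step, mul_l, inv_l, mul_h, inv_h, hx, inv_one, val_one, mul_one, one_mul, sub_mul]
    abel

theorem iterate_of_h (y : Tri H φ) (n : ℕ) (x : Tri H φ) (hx : x.h = 1) :
    ((step y)^[n] x).h = 1 ∧ ((step y)^[n] x).m = x.m * (val y.h - 1) ^ n ∧
      ((step y)^[n] x).l = (val y.h⁻¹ - 1) ^ n * x.l := by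
  induction n with
  | zero => simp [hx]
  | succ n ih =>
    obtain ⟨h1, h2, h3⟩ := ih
    obtain ⟨k1, k2, k3⟩ := step_of_h y _ h1
    rw [Function.iterate_succ_apply']
    refine ⟨k1, ?_, ?_⟩
    · rw [k2, h2, pow_succ, mul_assoc]
    · rw [k3, h3, pow_succ', mul_assoc]

theorem step_central (y x : Tri H φ) (h1 : x.h = 1) (h2 : x.m = 0) (h3 : x.l = 0) :
    step y x = 1 := by
  apply Tri.ext
  · simp [step, h1]
  · simp [step, h1, h2, mul_assoc]
  · simp [step, h1, h3]
  · simp [step, h1, h2, h3, mul_assoc]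
    ring

theorem engel (hE : ∀ x y : H, ∃ n : ℕ, (step y)^[n] x = 1)
    (hnil : ∀ x : H, IsNilpotent (val x - 1)) (x y : Tri H φ) :
    ∃ n : ℕ, (step y)^[n] x = 1 := by
  obtain ⟨n, hn⟩ := hE x.h y.h
  obtain ⟨a, ha⟩ := hnil y.h
  obtain ⟨b, hb⟩ := hnil y.h⁻¹
  have h1 : ((step y)^[n] x).h = 1 := by rw [iterate_h, hn]
  obtain ⟨k1, k2, k3⟩ := iterate_of_h y (a + b) _ h1
  refine ⟨(a + b + n) + 1, ?_⟩
  rw [Function.iterate_succ_apply', Function.iterate_add_apply]
  apply step_central _ _ k1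
  · rw [k2, pow_add, ha]; simp
  · rw [k3, pow_add, hb]; simp

theorem orderable (Q : Set S) (hadd : ∀ a ∈ Q, ∀ b ∈ Q, a + b ∈ Q) (h0 : (0 : S) ∉ Q)
    (htot : ∀ a, a ≠ 0 → a ∈ Q ∨ -a ∈ Q)
    (hl : ∀ a ∈ Q, ∀ x : H, val x * a ∈ Q) (hr : ∀ a ∈ Q, ∀ x : H, a * val x ∈ Q) :
    ∃ C : Set (Tri H φ), (∀ a ∈ C, ∀ b ∈ C, a * b ∈ C) ∧
      (∀ a ∈ C, ∀ g : Tri H φ, g * a * g⁻¹ ∈ C) ∧ (1 : Tri H φ) ∉ C ∧
      (∀ a : Tri H φ, a ≠ 1 → a ∈ C ∨ a⁻¹ ∈ C) := by
  refine ⟨{a | val a.h - 1 ∈ Q ∨ (a.h = 1 ∧ (a.l ∈ Q ∨ (a.l = 0 ∧ (a.m ∈ Q ∨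
    (a.m = 0 ∧ 0 < a.z)))))}, ?_, ?_, ?_, ?_⟩
  · intro a ha b hb
    simp only [Set.mem_ofPred_eq] at ha hb ⊢
    rcases ha with ha | ⟨ha1, ha⟩
    · rcases hb with hb | ⟨hb1, -⟩
      · left
        have : val (a * b).h - 1 = (val a.h - 1) * val b.h + (val b.h - 1) := by
          simp [sub_mul]
        rw [this]
        exact hadd _ (hr _ ha _) _ hb
      · left
        simpa [hb1] using ha
    · rcases hb with hb | ⟨hb1, hb⟩
      · left
        simpa [ha1] using hb
      · right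
        refine ⟨by simp [ha1, hb1], ?_⟩
        simp only [mul_l, mul_m, mul_z, ha1, hb1, val_one, one_mul, mul_one]
        rcases ha with ha | ⟨ha2, ha⟩
        · rcases hb with hb | ⟨hb2, -⟩
          · left; exact hadd _ ha _ hb
          · left; simpa [hb2] using ha
        · rcases hb with hb | ⟨hb2, hb⟩
          · left; simpa [ha2] using hb
          · right
            refine ⟨by simp [ha2, hb2], ?_⟩
            rcases ha with ha | ⟨ha3, ha⟩
            · rcases hb with hb | ⟨hb3, -⟩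
              · left; exact hadd _ hb _ ha
              · left; simpa [hb3] using ha
            · rcases hb with hb | ⟨hb3, hb⟩
              · left; simpa [ha3] using hb
              · right
                refine ⟨by simp [ha3, hb3], ?_⟩
                simp only [ha3, zero_mul, map_zero, add_zero]
                positivity
  · intro a ha g
    simp only [Set.mem_ofPred_eq] at ha ⊢
    rcases ha with ha | ⟨ha1, ha⟩
    · left
      have : val (g * a * g⁻¹).h - 1 = val g.h * (val a.h - 1) * val g.h⁻¹ := by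
        simp [sub_mul, mul_sub]
      rw [this]
      exact hr _ (hl _ ha _) _
    · right
      refine ⟨by simp [ha1], ?_⟩
      have e1 : (g * a * g⁻¹).l = val g.h * a.l := by simp [ha1]
      have e2 : (g * a * g⁻¹).m = a.m * val g.h⁻¹ := by simp [ha1, add_mul]
      rcases ha with ha | ⟨ha2, ha⟩
      · left; rw [e1]; exact hl _ ha _
      · right
        refine ⟨by rw [e1, ha2, mul_zero], ?_⟩
        rcases ha with ha | ⟨ha3, ha⟩
        · left; rw [e2]; exact hr _ ha _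
        · right
          refine ⟨by rw [e2, ha3, zero_mul], ?_⟩
          have : (g * a * g⁻¹).z = a.z := by
            simp [ha1, ha2, ha3]
            ring
          rw [this]; exact ha
  · simp [h0]
  · intro a ha
    simp only [Set.mem_ofPred_eq]
    by_cases h1 : a.h = 1
    · by_cases h2 : a.l = 0
      · by_cases h3 : a.m = 0
        · have h4 : a.z ≠ 0 := by
            intro h4
            apply ha
            apply Tri.ext <;> simp [h1, h2, h3, h4]
          rcases lt_or_gt_of_ne h4 with h | h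
          · right; right
            refine ⟨by simp [h1], Or.inr ⟨by simp [h2], Or.inr ⟨by simp [h3], ?_⟩⟩⟩
            simp [h3, h]
          · left; right
            exact ⟨h1, Or.inr ⟨h2, Or.inr ⟨h3, h⟩⟩⟩
        · rcases htot _ h3 with h | h
          · left; right
            exact ⟨h1, Or.inr ⟨h2, Or.inl h⟩⟩
          · right; right
            refine ⟨by simp [h1], Or.inr ⟨by simp [h2], Or.inl ?_⟩⟩
            simpa [h1] using h
      · rcases htot _ h2 with h | h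
        · left; right
          exact ⟨h1, Or.inl h⟩
        · right; right
          refine ⟨by simp [h1], Or.inl ?_⟩
          simpa [h1] using h
    · have : val a.h - 1 ≠ 0 := fun h => h1 (val_inj (sub_eq_zero.mp h))
      rcases htot _ this with h | h
      · left; left; exact h
      · right; left
        have e : val (a⁻¹).h - 1 = -(val a.h - 1) * val a.h⁻¹ := by
          simp [sub_mul]
        rw [e]
        exact hr _ h _

theorem not_extend {ι : Type} [Fintype ι] [Nonempty ι] (e : ι → H) (hφ1 : φ 1 = 1)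
    (hφ : ∀ r : S, φ ((∑ i, val (e i)) * r) = 0) :
    ∃ P : Set (Tri H φ), (∀ a ∈ P, ∀ b ∈ P, a * b ∈ P) ∧
      (∀ a ∈ P, ∀ g : Tri H φ, g * a * g⁻¹ ∈ P) ∧ (1 : Tri H φ) ∉ P ∧
      ¬ ∃ Q : Set (Tri H φ), P ⊆ Q ∧ (∀ a ∈ Q, ∀ b ∈ Q, a * b ∈ Q) ∧
          (∀ a ∈ Q, ∀ g : Tri H φ, g * a * g⁻¹ ∈ Q) ∧ (1 : Tri H φ) ∉ Q ∧
          (∀ a : Tri H φ, a ≠ 1 → a ∈ Q ∨ a⁻¹ ∈ Q) := by
  classical
  set γ : S := ∑ i, val (e i) with hγ
  refine ⟨{a | a.h = 1 ∧ (∃ r, a.m = γ * r) ∧ a.l = 0 ∧ 0 < a.z}, ?_, ?_, ?_, ?_⟩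
  · rintro a ⟨a1, ⟨r, a2⟩, a3, a4⟩ b ⟨b1, ⟨s, b2⟩, b3, b4⟩
    refine ⟨by simp [a1, b1], ⟨s + r, by simp [a2, b2, b1, mul_add]⟩, by simp [a3, b3], ?_⟩
    simp only [mul_z, b3, mul_zero, map_zero, add_zero]
    positivity
  · rintro a ⟨a1, ⟨r, a2⟩, a3, a4⟩ g
    refine ⟨by simp [a1], ⟨r * val g.h⁻¹, by simp [a1, a2, add_mul, mul_assoc]⟩,
      by simp [a1, a3], ?_⟩
    have : (g * a * g⁻¹).z = a.z := by
      simp only [mul_z, mul_m, inv_z, inv_l, a1, a2, a3, val_one, mul_one, mul_zero, map_zero,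
        add_zero, mul_neg, add_mul, map_neg, map_add]
      simp only [mul_assoc, hφ]
      ring
    rw [this]; exact a4
  · rintro ⟨-, -, -, h⟩
    simp at h
  · rintro ⟨Q, hPQ, hmul, hconj, hone, htot⟩
    have key : ∀ ε : S, ε * ε = 1 → (∀ s, ε * s = s * ε) → (⟨1, ε, 0, 0⟩ : Tri H φ) ∉ Q := by
      intro ε hε hc hQ
      have h1 : ∀ i, (⟨1, ε * val (e i), 0, -1⟩ : Tri H φ) ∈ Q := by
        intro i
        have := hconj _ hQ (⟨e i, 0, -ε, 0⟩ : Tri H φ)⁻¹
        convert this using 1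
        apply Tri.ext
        · simp
        · simp
        · simp
        · simp [hε, hφ1]
      have h2 : ∀ s : Finset ι, s.Nonempty →
          (⟨1, ε * ∑ i ∈ s, val (e i), 0, -(s.card : ℚ)⟩ : Tri H φ) ∈ Q := by
        intro s hs
        induction hs using Finset.Nonempty.cons_induction with
        | singleton a => simpa using h1 a
        | cons a s h hs ih =>
          have := hmul _ ih _ (h1 a)
          convert this using 1
          apply Tri.ext
          · simp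
          · simp only [Finset.sum_cons, mul_m, val_one, mul_one, mul_add]
          · simp
          · simp only [Finset.card_cons, mul_z, mul_zero, map_zero]
            push_cast
            ring
      have h3 := h2 Finset.univ Finset.univ_nonempty
      have h4 : (⟨1, γ * (-ε), 0, (Fintype.card ι : ℚ)⟩ : Tri H φ) ∈ Q := by
        apply hPQ
        refine ⟨rfl, ⟨-ε, rfl⟩, rfl, ?_⟩
        have : 0 < Fintype.card ι := Fintype.card_pos
        show (0 : ℚ) < (Fintype.card ι : ℚ)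
        exact_mod_cast this
      apply hone
      have := hmul _ h3 _ h4
      convert this using 1
      apply Tri.ext
      · simp
      · simp [← hγ, hc γ]
      · simp
      · simp
    have hne : (⟨1, 1, 0, 0⟩ : Tri H φ) ≠ 1 := by
      intro h
      have h' : (1 : S) = 0 := congrArg Tri.m h
      rw [h', map_zero] at hφ1
      exact zero_ne_one hφ1
    rcases htot _ hne with h | h
    · exact key 1 (by simp) (by simp) h
    · apply key (-1) (by simp) (by simp)
      convert h using 1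
      apply Tri.ext <;> simp

end Tri

/-- The abstract criterion. -/
theorem criterion (J : ℕ → Submodule ℚ S) (h0 : J 0 = ⊤) (hanti : Antitone J)
    (hmul : ∀ i j, ∀ a ∈ J i, ∀ b ∈ J j, a * b ∈ J (i + j))
    (hsep : ∀ v, (∀ n, v ∈ J n) → v = 0)
    (H : Subgroup Sˣ) (hH : ∀ x : H, Tri.val x - 1 ∈ J 1)
    (hE : ∀ x y : H, ∃ n : ℕ, (Tri.step y)^[n] x = 1)
    (hnil : ∀ x : H, IsNilpotent (Tri.val x - 1))
    {ι : Type} [Fintype ι] [Nonempty ι] (e : ι → H)
    (hγ : ∀ r : S, (∑ i, Tri.val (e i)) * r ≠ 1) :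
    ¬ (∀ (G : Type) [Group G],
      (∀ x y : G, ∃ n : ℕ, (fun z : G => z⁻¹ * y⁻¹ * z * y)^[n] x = 1) →
      (∃ Q : Set G, (∀ a ∈ Q, ∀ b ∈ Q, a * b ∈ Q) ∧
          (∀ a ∈ Q, ∀ g : G, g * a * g⁻¹ ∈ Q) ∧ (1 : G) ∉ Q ∧
          (∀ a : G, a ≠ 1 → a ∈ Q ∨ a⁻¹ ∈ Q)) →
      ∀ P : Set G, (∀ a ∈ P, ∀ b ∈ P, a * b ∈ P) →
        (∀ a ∈ P, ∀ g : G, g * a * g⁻¹ ∈ P) → (1 : G) ∉ P →
        ∃ Q : Set G, P ⊆ Q ∧ (∀ a ∈ Q, ∀ b ∈ Q, a * b ∈ Q) ∧
          (∀ a ∈ Q, ∀ g : G, g * a * g⁻¹ ∈ Q) ∧ (1 : G) ∉ Q ∧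
          (∀ a : G, a ≠ 1 → a ∈ Q ∨ a⁻¹ ∈ Q)) := by
  intro hall
  have hnot : (1 : S) ∉ LinearMap.range (LinearMap.mulLeft ℚ (∑ i, Tri.val (e i))) := by
    rintro ⟨r, hr⟩
    exact hγ r hr
  obtain ⟨ψ, hψ1, hψ⟩ := Submodule.exists_le_ker_of_notMem hnot
  let φ : S →ₗ[ℚ] ℚ := (ψ 1)⁻¹ • ψ
  have hφ1 : φ 1 = 1 := by simp [φ, hψ1]
  have hφ : ∀ r : S, φ ((∑ i, Tri.val (e i)) * r) = 0 := by
    intro r
    have : ψ ((∑ i, Tri.val (e i)) * r) = 0 := hψ ⟨r, rfl⟩
    simp [φ, this]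
  obtain ⟨Q, hQ1, hQ2, hQ3, hQ4⟩ := exists_cone J h0 hanti hsep
  have hl : ∀ a ∈ Q, ∀ x : H, Tri.val x * a ∈ Q := by
    intro a ha x
    have := hQ4 a ha ((Tri.val x - 1) * a) (fun n hn => by
      have := hmul 1 n _ (hH x) _ hn
      rwa [add_comm] at this)
    convert this using 1
    rw [sub_mul, one_mul]; abel
  have hr : ∀ a ∈ Q, ∀ x : H, a * Tri.val x ∈ Q := by
    intro a ha x
    have := hQ4 a ha (a * (Tri.val x - 1)) (fun n hn => hmul n 1 _ hn _ (hH x))
    convert this using 1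
    rw [mul_sub, mul_one]; abel
  obtain ⟨P, hP1, hP2, hP3, hP4⟩ := Tri.not_extend (φ := φ) e hφ1 hφ
  exact hP4 (hall (Tri H φ) (Tri.engel hE hnil) (Tri.orderable Q hQ1 hQ2 hQ3 hl hr) P hP1 hP2 hP3)

end Pool.Agent.MP_f7bb97_al.H87
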