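import Mathlib
import Pool.Agent.MP_f7bb97_al.H87.GS
import Pool.Agent.MP_f7bb97_al.H87.Group

/-!
An infinite-dimensional graded nil algebra, generated by eight elements of square zero, whose
adjoint group is Engel.
-/

set_option autoImplicit false
set_option linter.unusedSimpArgs false

namespace Pool.Agent.MP_f7bb97_al.H87

noncomputable section

/-- The properties of the Golod-Shafarevich algebra that are used later. -/
structure GSData (R : Type) [Ring R] [Algebra ℚ R] where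
  B : ℕ → Submodule ℚ R
  x : Fin 8 → R
  τ : ℕ → R →ₗ[ℚ] R
  ψ : ℕ → R →ₗ[ℚ] ℚ
  B_zero : ∀ r, r ∈ B 0
  B_anti : Antitone B
  B_mul : ∀ i j, ∀ a ∈ B i, ∀ b ∈ B j, a * b ∈ B (i + j)
  x_mem : ∀ i, x i ∈ B 1
  x_sq : ∀ i, x i * x i = 0
  τ_B : ∀ N, ∀ r ∈ B (N + 1), τ N r = 0
  τ_ev : ∀ r, ∃ N, ∀ M, N ≤ M → τ M r = r
  ψ_B : ∀ n, ∀ r ∈ B (n + 1), ψ n r = 0
  ψ_τ : ∀ n M, M < n → ∀ r, ψ n (τ M r) = 0
  ψ_ne : ∀ n, ∃ l : List (Fin 8), l.length = n ∧ ψ n (l.map x).prod ≠ 0
  ψ_short : ∀ n (l : List (Fin 8)), l.length < n → ψ n (l.map x).prod = 0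
  nil : ∀ v ∈ B 1, IsNilpotent v
  engel : ∀ g h : Rˣ, (g : R) - 1 ∈ B 1 → (h : R) - 1 ∈ B 1 → ∃ n : ℕ, (Tri.step h)^[n] g = 1

theorem exists_lift {U V M : Type} [AddCommGroup U] [Module ℚ U] [AddCommGroup V] [Module ℚ V]
    [AddCommGroup M] [Module ℚ M] (π : U →ₗ[ℚ] V) (hπ : Function.Surjective π) (f : U →ₗ[ℚ] M)
    (h : ∀ t, π t = 0 → f t = 0) : ∃ g : V →ₗ[ℚ] M, ∀ t, g (π t) = f t := by
  obtain ⟨σ, hσ⟩ := π.exists_rightInverse_of_surjective (LinearMap.range_eq_top.mpr hπ)
  refine ⟨f ∘ₗ σ, fun t => ?_⟩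
  have h1 : π (σ (π t) - t) = 0 := by
    have := LinearMap.congr_fun hσ (π t)
    simp only [LinearMap.comp_apply, LinearMap.id_apply] at this
    rw [map_sub, this, sub_self]
  have h2 := h _ h1
  rw [map_sub, sub_eq_zero] at h2
  exact h2

/-- The recursion that computes iterated commutators, minus one, and their inverses. -/
def engelStep {R : Type} [Ring R] (v v' : R) (p : R × R) : R × R :=
  ((1 + p.2) * (1 + v') * (p.1 * v - v * p.1), (1 + v') * (1 + p.2) * (v * p.1 - p.1 * v))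

theorem engelStep_units {R : Type} [Ring R] (g h : Rˣ) :
    engelStep ((h : R) - 1) (((h⁻¹ : Rˣ) : R) - 1) ((g : R) - 1, ((g⁻¹ : Rˣ) : R) - 1) =
      (((Tri.step h g : Rˣ) : R) - 1, (((Tri.step h g)⁻¹ : Rˣ) : R) - 1) := by
  have e1 : ((g : R) - 1) * ((h : R) - 1) - ((h : R) - 1) * ((g : R) - 1) = g * h - h * g := by
    noncomm_ring
  have e2 : ((h : R) - 1) * ((g : R) - 1) - ((g : R) - 1) * ((h : R) - 1) = h * g - g * h := by
    noncomm_ring
  simp only [engelStep, e1, e2, add_sub_cancel]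
  simp only [Tri.step, mul_sub, mul_inv_rev, inv_inv, Units.val_mul, Prod.mk.injEq]
  constructor
  · simp [mul_assoc]
  · simp [mul_assoc]

theorem engelStep_iterate_units {R : Type} [Ring R] (h : Rˣ) (n : ℕ) (g : Rˣ) :
    (engelStep ((h : R) - 1) (((h⁻¹ : Rˣ) : R) - 1))^[n] ((g : R) - 1, ((g⁻¹ : Rˣ) : R) - 1) =
      ((((Tri.step h)^[n] g : Rˣ) : R) - 1, ((((Tri.step h)^[n] g)⁻¹ : Rˣ) : R) - 1) := by
  induction n generalizing g with
  | zero => rfl
  | succ n ih => rw [Function.iterate_succ_apply, Function.iterate_succ_apply, engelStep_units, ih]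

theorem engelStep_iterate_map {R R' : Type} [Ring R] [Ring R'] (f : R →+* R') (v v' : R) (n : ℕ)
    (p : R × R) :
    Prod.map f f ((engelStep v v')^[n] p) = (engelStep (f v) (f v'))^[n] (Prod.map f f p) := by
  induction n generalizing p with
  | zero => rfl
  | succ n ih =>
    rw [Function.iterate_succ_apply, Function.iterate_succ_apply, ih]
    congr 1
    simp [engelStep]

theorem engelStep_iterate_mem {v : T} (hv : v ∈ A 1) (v' : T) (n : ℕ) (p : T × T) :
    ((engelStep v v')^[n] p).1 ∈ A n := by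
  induction n with
  | zero => exact mem_A_zero _
  | succ n ih =>
    rw [Function.iterate_succ_apply']
    have h1 := A_mul ih hv
    have h2 := A_mul hv ih
    rw [add_comm] at h2
    have := A_mul (mem_A_zero ((1 + ((engelStep v v')^[n] p).2) * (1 + v')))
      ((A _).sub_mem h1 h2)
    rw [zero_add] at this
    exact this

theorem pow_mem_A {v : T} (hv : v ∈ A 1) (n : ℕ) : v ^ n ∈ A n := by
  induction n with
  | zero => exact mem_A_zero _
  | succ n ih => rw [pow_succ]; exact A_mul ih hv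

instance countable_T : Countable T :=
  (MonoidAlgebra.coeffEquiv (R := ℚ) (M := W)).countable_iff.mpr (by
    have : Countable W := inferInstanceAs (Countable (List (Fin 8)))
    infer_instance)

/-- An enumeration of the data of the relations. -/
def enum : ℕ → (A 1 × T × T × T) × Bool := (exists_surjective_nat _).choose

theorem enum_surj : Function.Surjective enum := (exists_surjective_nat _).choose_spec

/-- The relation attached to a datum, with a given order. -/
def relOf (q : (A 1 × T × T × T) × Bool) (N : ℕ) : T :=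
  if q.2 then (q.1.1 : T) ^ N else ((engelStep (q.1.1 : T) q.1.2.1)^[N] q.1.2.2).1

theorem relOf_mem (q : (A 1 × T × T × T) × Bool) (N : ℕ) : relOf q N ∈ A N := by
  unfold relOf
  split_ifs
  · exact pow_mem_A q.1.1.2 N
  · exact engelStep_iterate_mem q.1.1.2 _ N _

theorem X_mem (i : Fin 8) : X i ∈ A 1 := wd_mem_A (by simp)

/-- The list of all relations. -/
def rels (s : ℕ) : T :=
  if h : s < 8 then X ⟨s, h⟩ * X ⟨s, h⟩ else relOf (enum (s - 8)) (s - 8 + 2)

theorem rels_mem (s : ℕ) : rels s ∈ A (s - 8 + 2) := by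
  unfold rels
  split_ifs with h
  · have : s - 8 + 2 = 1 + 1 := by omega
    rw [this]
    exact A_mul (X_mem _) (X_mem _)
  · exact relOf_mem _ _

theorem E_left {n : ℕ} {φ : T →ₗ[ℚ] ℚ} (h : φ ∈ E rels n) (u : W) :
    φ ∘ₗ LinearMap.mulLeft ℚ (wd u) ∈ E rels (n - u.length) := by
  refine ⟨fun w hw => ?_, fun s a b => ?_⟩
  · simp only [LinearMap.comp_apply, LinearMap.mulLeft_apply]
    by_cases hc : u.length ≤ n
    · rw [← wd_mul]; apply h.1; rw [FreeMonoid.length_mul]; omega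
    · rw [← wd_mul]; apply h.1; rw [FreeMonoid.length_mul]; omega
  · have := h.2 s (wd u * a) b
    simpa [mul_assoc] using this

theorem E_right {n : ℕ} {φ : T →ₗ[ℚ] ℚ} (h : φ ∈ E rels n) (u : W) :
    φ ∘ₗ LinearMap.mulRight ℚ (wd u) ∈ E rels (n - u.length) := by
  refine ⟨fun w hw => ?_, fun s a b => ?_⟩
  · simp only [LinearMap.comp_apply, LinearMap.mulRight_apply]
    by_cases hc : u.length ≤ n
    · rw [← wd_mul]; apply h.1; rw [FreeMonoid.length_mul]; omega
    · rw [← wd_mul]; apply h.1; rw [FreeMonoid.length_mul]; omega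
  · have := h.2 s a (b * wd u)
    simpa [mul_assoc] using this

/-- The homogeneous ideal generated by the relations. -/
def I : Ideal T where
  carrier := {t | ∀ n, ∀ φ ∈ E rels n, φ t = 0}
  add_mem' := fun ha hb n φ hφ => by rw [map_add, ha n φ hφ, hb n φ hφ, add_zero]
  zero_mem' := fun _ _ _ => map_zero _
  smul_mem' := fun a t ht n φ hφ => by
    rw [smul_eq_mul]
    induction a using T_ind with
    | h1 w => exact ht _ _ (E_left hφ w)
    | h2 x y hx hy => rw [add_mul, map_add, hx, hy, add_zero]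
    | h3 c x hx => rw [smul_mul_assoc, map_smul, hx, smul_zero]

instance I_twoSided : I.IsTwoSided where
  mul_mem_of_left := fun {t} b ht n φ hφ => by
    induction b using T_ind with
    | h1 w => exact ht _ _ (E_right hφ w)
    | h2 x y hx hy => rw [mul_add, map_add, hx, hy, add_zero]
    | h3 c x hx => rw [mul_smul_comm, map_smul, hx, smul_zero]

theorem rels_mem_I (s : ℕ) : rels s ∈ I := fun n φ hφ => by
  simpa using hφ.2 s 1 1

/-- The quotient algebra. -/
abbrev RR : Type := T ⧸ I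

/-- The quotient map. -/
def mk : T →ₐ[ℚ] RR := Ideal.Quotient.mkₐ ℚ I

theorem mk_surj : Function.Surjective mk := Ideal.Quotient.mkₐ_surjective ℚ I

theorem mk_eq_zero {t : T} : mk t = 0 ↔ t ∈ I := Ideal.Quotient.eq_zero_iff_mem

theorem proj_mem_I (p : ℕ → Prop) [DecidablePred p] {t : T} (ht : t ∈ I) : proj p t ∈ I := by
  intro n φ hφ
  have := hφ.1.mul_proj p 1 t
  rw [wd_one, one_mul, one_mul] at this
  rw [this, ht n φ hφ]
  simp

theorem wd_ofList (l : List (Fin 8)) :
    mk (wd (FreeMonoid.ofList l)) = (l.map (fun i => mk (X i))).prod := by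
  induction l with
  | nil => simp [wd_one]
  | cons i l ih =>
    rw [FreeMonoid.ofList_cons, wd_mul, map_mul, ih]
    rfl

theorem exists_data : Nonempty (GSData RR) := by
  have hτ : ∀ N : ℕ, ∃ g : RR →ₗ[ℚ] RR, ∀ t, g (mk t) = mk (proj (· ≤ N) t) := fun N =>
    exists_lift mk.toLinearMap mk_surj (mk.toLinearMap ∘ₗ proj (· ≤ N))
      (fun t ht => mk_eq_zero.mpr (proj_mem_I _ (mk_eq_zero.mp ht)))
  choose τ hτ using hτ
  choose φ hφ w hw1 hw2 using exists_functional rels_mem
  have hψ : ∀ n : ℕ, ∃ g : RR →ₗ[ℚ] ℚ, ∀ t, g (mk t) = φ n t := fun n =>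
    exists_lift mk.toLinearMap mk_surj (φ n) (fun t ht => mk_eq_zero.mp ht n _ (hφ n))
  choose ψ hψ using hψ
  have hrel : ∀ q, ∃ N, mk (relOf q N) = 0 := by
    intro q
    obtain ⟨k, rfl⟩ := enum_surj q
    refine ⟨k + 2, ?_⟩
    have := mk_eq_zero.mpr (rels_mem_I (k + 8))
    rw [rels, dif_neg (by omega)] at this
    simpa using this
  refine ⟨{ B := fun n => (A n).map mk.toLinearMap
            x := fun i => mk (X i)
            τ := τ
            ψ := ψ
            B_zero := ?_, B_anti := ?_, B_mul := ?_, x_mem := ?_, x_sq := ?_, τ_B := ?_,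
            τ_ev := ?_, ψ_B := ?_, ψ_τ := ?_, ψ_ne := ?_, ψ_short := ?_, nil := ?_,
            engel := ?_ }⟩
  · intro r
    obtain ⟨t, rfl⟩ := mk_surj r
    exact ⟨t, mem_A_zero t, rfl⟩
  · exact fun _ _ h => Submodule.map_mono (A_anti h)
  · rintro i j _ ⟨a, ha, rfl⟩ _ ⟨b, hb, rfl⟩
    exact ⟨a * b, A_mul ha hb, map_mul mk a b⟩
  · exact fun i => ⟨X i, X_mem i, rfl⟩
  · intro i
    rw [← map_mul, mk_eq_zero]
    have := rels_mem_I i
    rwa [rels, dif_pos i.2] at this
  · rintro N _ ⟨t, ht, rfl⟩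
    have : proj (· ≤ N) t = 0 :=
      A_ind (P := fun t => proj (· ≤ N) t = 0) ht
        (fun w hw => by rw [proj_wd, if_neg (by omega)]) (by simp)
        (fun x y hx hy => by simp [hx, hy]) (fun c x hx => by simp [hx])
    show τ N (mk t) = 0
    rw [hτ, this, map_zero]
  · intro r
    obtain ⟨t, rfl⟩ := mk_surj r
    induction t using T_ind with
    | h1 w => exact ⟨w.length, fun M hM => by rw [hτ, proj_wd, if_pos hM]⟩
    | h2 x y hx hy =>
      obtain ⟨N1, h1⟩ := hx
      obtain ⟨N2, h2⟩ := hy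
      exact ⟨max N1 N2, fun M hM => by
        rw [map_add, map_add, h1 M (le_trans (le_max_left _ _) hM),
          h2 M (le_trans (le_max_right _ _) hM)]⟩
    | h3 c x hx =>
      obtain ⟨N1, h1⟩ := hx
      exact ⟨N1, fun M hM => by rw [map_smul, map_smul, h1 M hM]⟩
  · rintro n _ ⟨t, ht, rfl⟩
    show ψ n (mk t) = 0
    rw [hψ]
    exact (hφ n).1.vanish ht
  · intro n M hM r
    obtain ⟨t, rfl⟩ := mk_surj r
    rw [hτ, hψ]
    have := (hφ n).1.mul_proj (· ≤ M) 1 t
    rw [wd_one, one_mul] at this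
    rw [this, if_neg]
    simp only [FreeMonoid.length_one]
    omega
  · intro n
    refine ⟨(w n).toList, hw1 n, ?_⟩
    rw [← wd_ofList, hψ]
    exact hw2 n
  · intro n l hl
    rw [← wd_ofList, hψ]
    apply (hφ n).1
    show l.length ≠ n
    omega
  · rintro _ ⟨v, hv, rfl⟩
    obtain ⟨N, hN⟩ := hrel ((⟨v, hv⟩, 0, 0, 0), true)
    refine ⟨N, ?_⟩
    simpa [relOf] using hN
  · rintro g h - ⟨v, hv, hv'⟩
    obtain ⟨v', hv2⟩ := mk_surj (((h⁻¹ : RRˣ) : RR) - 1)
    obtain ⟨u, hu⟩ := mk_surj ((g : RR) - 1)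
    obtain ⟨u', hu'⟩ := mk_surj (((g⁻¹ : RRˣ) : RR) - 1)
    obtain ⟨N, hN⟩ := hrel ((⟨v, hv⟩, v', u, u'), false)
    refine ⟨N, ?_⟩
    have h1 := engelStep_iterate_map (mk : T →+* RR) v v' N (u, u')
    have hv1 : mk v = (h : RR) - 1 := hv'
    simp only [RingHom.coe_coe, Prod.map_apply, hv1, hv2, hu, hu'] at h1
    rw [engelStep_iterate_units] at h1
    have h2 := congrArg Prod.fst h1
    simp only [Prod.map_fst] at h2
    have h3 : mk ((engelStep v v')^[N] (u, u')).1 = 0 := by simpa [relOf] using hN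
    rw [h3] at h2
    apply Units.ext
    exact sub_eq_zero.mp h2.symm

end

end Pool.Agent.MP_f7bb97_al.H87
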