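import Mathlib
import Pool.Agent.MP_f7bb97_al.H87.Ring

/-!
The tensor square of the Golod-Shafarevich algebra: the diagonal image of the adjoint group is
Engel and unipotent, but a sum of sixteen of its elements is not invertible.
-/

set_option autoImplicit false
set_option linter.unusedSimpArgs false

open TensorProduct

namespace Pool.Agent.MP_f7bb97_al.H87

noncomputable section

namespace GSData

variable {R : Type} [Ring R] [Algebra ℚ R] (D : GSData R)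

/-- The filtration of the tensor square by total order. -/
def J (n : ℕ) : Submodule ℚ (R ⊗[ℚ] R) :=
  Submodule.span ℚ {t | ∃ i j, n ≤ i + j ∧ ∃ a ∈ D.B i, ∃ b ∈ D.B j, t = a ⊗ₜ[ℚ] b}

theorem tmul_mem_J {n i j : ℕ} (h : n ≤ i + j) {a b : R} (ha : a ∈ D.B i) (hb : b ∈ D.B j) :
    a ⊗ₜ[ℚ] b ∈ D.J n := Submodule.subset_span ⟨i, j, h, a, ha, b, hb, rfl⟩

theorem J_ind {n : ℕ} {P : R ⊗[ℚ] R → Prop} {t : R ⊗[ℚ] R} (ht : t ∈ D.J n)
    (h1 : ∀ i j, n ≤ i + j → ∀ a ∈ D.B i, ∀ b ∈ D.B j, P (a ⊗ₜ[ℚ] b)) (h0 : P 0)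
    (h2 : ∀ a b, P a → P b → P (a + b)) (h3 : ∀ (c : ℚ) a, P a → P (c • a)) : P t := by
  induction ht using Submodule.span_induction with
  | mem x hx => obtain ⟨i, j, h, a, ha, b, hb, rfl⟩ := hx; exact h1 i j h a ha b hb
  | zero => exact h0
  | add x y _ _ hx hy => exact h2 _ _ hx hy
  | smul c x _ hx => exact h3 _ _ hx

theorem J_zero : D.J 0 = ⊤ := by
  rw [eq_top_iff]
  rintro t -
  induction t using TensorProduct.induction_on with
  | zero => exact zero_mem _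
  | tmul a b => exact D.tmul_mem_J (Nat.zero_le (0 + 0)) (D.B_zero a) (D.B_zero b)
  | add x y hx hy => exact add_mem hx hy

theorem J_anti : Antitone D.J := fun _ _ h =>
  Submodule.span_mono fun _ ⟨i, j, hij, r⟩ => ⟨i, j, le_trans h hij, r⟩

theorem J_mul (i j : ℕ) (a : R ⊗[ℚ] R) (ha : a ∈ D.J i) (b : R ⊗[ℚ] R) (hb : b ∈ D.J j) :
    a * b ∈ D.J (i + j) := by
  refine D.J_ind (P := fun a => a * b ∈ D.J (i + j)) ha (fun i1 j1 h1 a1 ha1 b1 hb1 => ?_)
    (by simp) (fun x y hx hy => by rw [add_mul]; exact add_mem hx hy)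
    (fun c x hx => by rw [smul_mul_assoc]; exact (D.J _).smul_mem c hx)
  refine D.J_ind (P := fun b => (a1 ⊗ₜ[ℚ] b1) * b ∈ D.J (i + j)) hb
    (fun i2 j2 h2 a2 ha2 b2 hb2 => ?_)
    (by simp) (fun x y hx hy => by rw [mul_add]; exact add_mem hx hy)
    (fun c x hx => by rw [mul_smul_comm]; exact (D.J _).smul_mem c hx)
  rw [Algebra.TensorProduct.tmul_mul_tmul]
  exact D.tmul_mem_J (by omega) (D.B_mul _ _ _ ha1 _ ha2) (D.B_mul _ _ _ hb1 _ hb2)

theorem τ_ev2 (t : R ⊗[ℚ] R) : ∃ N, ∀ M, N ≤ M → TensorProduct.map (D.τ M) (D.τ M) t = t := by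
  induction t using TensorProduct.induction_on with
  | zero => exact ⟨0, fun _ _ => map_zero _⟩
  | tmul a b =>
    obtain ⟨N1, h1⟩ := D.τ_ev a
    obtain ⟨N2, h2⟩ := D.τ_ev b
    exact ⟨max N1 N2, fun M hM => by
      rw [TensorProduct.map_tmul, h1 M (le_trans (le_max_left _ _) hM),
        h2 M (le_trans (le_max_right _ _) hM)]⟩
  | add x y hx hy =>
    obtain ⟨N1, h1⟩ := hx
    obtain ⟨N2, h2⟩ := hy
    exact ⟨max N1 N2, fun M hM => by
      rw [map_add, h1 M (le_trans (le_max_left _ _) hM), h2 M (le_trans (le_max_right _ _) hM)]⟩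

theorem J_sep (t : R ⊗[ℚ] R) (h : ∀ n, t ∈ D.J n) : t = 0 := by
  obtain ⟨N, hN⟩ := D.τ_ev2 t
  rw [← hN N le_rfl]
  refine D.J_ind (P := fun t => TensorProduct.map (D.τ N) (D.τ N) t = 0) (h (N + N + 1))
    (fun i j hij a ha b hb => ?_) (by simp) (fun x y hx hy => by simp [hx, hy])
    (fun c x hx => by simp [hx])
  rw [TensorProduct.map_tmul]
  by_cases hi : N + 1 ≤ i
  · rw [D.τ_B N a (D.B_anti hi ha), TensorProduct.zero_tmul]
  · rw [D.τ_B N b (D.B_anti (by omega) hb), TensorProduct.tmul_zero]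

/-- The adjoint group. -/
def adj : Subgroup Rˣ where
  carrier := {g | (g : R) - 1 ∈ D.B 1}
  one_mem' := by simp
  mul_mem' := fun {a b} ha hb => by
    have h1 := D.B_mul 1 0 _ ha _ (D.B_zero (b : R))
    have : ((a * b : Rˣ) : R) - 1 = ((a : R) - 1) * b + ((b : R) - 1) := by
      simp [sub_mul]
    show ((a * b : Rˣ) : R) - 1 ∈ D.B 1
    rw [this]
    exact add_mem h1 hb
  inv_mem' := fun {a} ha => by
    have h1 := D.B_mul 1 0 _ ha _ (D.B_zero ((a⁻¹ : Rˣ) : R))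
    have : ((a⁻¹ : Rˣ) : R) - 1 = -(((a : R) - 1) * ((a⁻¹ : Rˣ) : R)) := by
      simp [sub_mul]
    show ((a⁻¹ : Rˣ) : R) - 1 ∈ D.B 1
    rw [this]
    exact neg_mem h1

/-- The diagonal map. -/
def diag (R : Type) [Ring R] [Algebra ℚ R] : R →* R ⊗[ℚ] R where
  toFun r := r ⊗ₜ[ℚ] r
  map_one' := rfl
  map_mul' a b := by rw [Algebra.TensorProduct.tmul_mul_tmul]

/-- The diagonal image of the adjoint group. -/
def H : Subgroup (R ⊗[ℚ] R)ˣ := D.adj.map (Units.map (diag R))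

theorem H_val (x : D.H) : ∃ g : Rˣ, (g : R) - 1 ∈ D.B 1 ∧ Units.map (diag R) g = x ∧
    Tri.val x = (g : R) ⊗ₜ[ℚ] (g : R) := by
  obtain ⟨x, g, hg, rfl⟩ := x
  exact ⟨g, hg, rfl, rfl⟩

theorem tmul_sub_one (g : R) :
    g ⊗ₜ[ℚ] g - 1 = (g - 1) ⊗ₜ[ℚ] g + (1 : R) ⊗ₜ[ℚ] (g - 1) := by
  rw [TensorProduct.sub_tmul, TensorProduct.tmul_sub, Algebra.TensorProduct.one_def]
  abel

theorem H_mem (x : D.H) : Tri.val x - 1 ∈ D.J 1 := by
  obtain ⟨g, hg, -, h⟩ := D.H_val x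
  rw [h, tmul_sub_one]
  exact add_mem (D.tmul_mem_J (le_refl (1 + 0)) hg (D.B_zero _))
    (D.tmul_mem_J (le_refl (0 + 1)) (D.B_zero _) hg)

theorem H_nil (x : D.H) : IsNilpotent (Tri.val x - 1) := by
  obtain ⟨g, hg, -, h⟩ := D.H_val x
  obtain ⟨N, hN⟩ := D.nil _ hg
  rw [h, tmul_sub_one]
  apply Commute.isNilpotent_add
  · show _ * _ = _ * _
    rw [Algebra.TensorProduct.tmul_mul_tmul, Algebra.TensorProduct.tmul_mul_tmul]
    congr 1
    · simp
    · rw [mul_sub, sub_mul, mul_one, one_mul]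
  · exact ⟨N, by rw [Algebra.TensorProduct.tmul_pow, hN, TensorProduct.zero_tmul]⟩
  · exact ⟨N, by rw [Algebra.TensorProduct.tmul_pow, hN, TensorProduct.tmul_zero]⟩

theorem step_map {G G' : Type} [Group G] [Group G'] (f : G →* G') (y : G) (n : ℕ) (x : G) :
    f ((Tri.step y)^[n] x) = (Tri.step (f y))^[n] (f x) := by
  induction n generalizing x with
  | zero => rfl
  | succ n ih =>
    rw [Function.iterate_succ_apply, Function.iterate_succ_apply, ih]
    congr 1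
    simp [Tri.step]

theorem H_engel (x y : D.H) : ∃ n : ℕ, (Tri.step y)^[n] x = 1 := by
  obtain ⟨g, hg, hg', -⟩ := D.H_val x
  obtain ⟨h, hh, hh', -⟩ := D.H_val y
  obtain ⟨n, hn⟩ := D.engel g h hg hh
  refine ⟨n, Subtype.ext ?_⟩
  have h1 := step_map D.H.subtype y n x
  have h2 := step_map (Units.map (diag R)) h n g
  rw [hn, map_one, hg', hh'] at h2
  exact h1.trans h2.symm

/-- The unit `1 + x i`. -/
def unit (i : Fin 8) : Rˣ where
  val := 1 + D.x i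
  inv := 1 - D.x i
  val_inv := by rw [add_mul, mul_sub, mul_sub, D.x_sq]; simp
  inv_val := by rw [sub_mul, mul_add, mul_add, D.x_sq]; simp

theorem unit_mem (i : Fin 8) : D.unit i ∈ D.adj := by
  show (1 + D.x i) - 1 ∈ D.B 1
  simpa using D.x_mem i

/-- The sixteen elements. -/
def e (p : Fin 8 × Bool) : D.H :=
  ⟨Units.map (diag R) (if p.2 then D.unit p.1 else (D.unit p.1)⁻¹),
    Subgroup.mem_map_of_mem _ (by
      split_ifs
      · exact D.unit_mem _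
      · exact inv_mem (D.unit_mem _))⟩

/-- The element that is not nilpotent. -/
def C : R ⊗[ℚ] R := ∑ i, D.x i ⊗ₜ[ℚ] D.x i

theorem sum_e : ∑ p, Tri.val (D.e p) = (16 : ℚ) • (1 : R ⊗[ℚ] R) + (2 : ℚ) • D.C := by
  rw [Fintype.sum_prod_type]
  have : ∀ i, ∑ b, Tri.val (D.e (i, b)) =
      (2 : ℚ) • (1 : R ⊗[ℚ] R) + (2 : ℚ) • (D.x i ⊗ₜ[ℚ] D.x i) := by
    intro i
    rw [Fintype.sum_bool]
    show (1 + D.x i) ⊗ₜ[ℚ] (1 + D.x i) + (1 - D.x i) ⊗ₜ[ℚ] (1 - D.x i) = _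
    simp only [TensorProduct.add_tmul, TensorProduct.tmul_add, TensorProduct.sub_tmul,
      TensorProduct.tmul_sub, Algebra.TensorProduct.one_def]
    module
  simp only [this]
  rw [Finset.sum_add_distrib, ← Finset.smul_sum, ← Finset.smul_sum, C]
  congr 1
  rw [Finset.sum_const, Finset.card_univ, Fintype.card_fin]
  module

/-- The tensor square of a functional. -/
def sq (ψ : R →ₗ[ℚ] ℚ) : R ⊗[ℚ] R →ₗ[ℚ] ℚ := LinearMap.mul' ℚ ℚ ∘ₗ TensorProduct.map ψ ψ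

theorem sq_tmul (ψ : R →ₗ[ℚ] ℚ) (a b : R) : sq ψ (a ⊗ₜ[ℚ] b) = ψ a * ψ b := by
  simp [sq]

theorem sq_mul (ψ : R →ₗ[ℚ] ℚ) (a : R) (t : R ⊗[ℚ] R) :
    sq ψ ((a ⊗ₜ[ℚ] a) * t) = sq (ψ ∘ₗ LinearMap.mulLeft ℚ a) t := by
  induction t using TensorProduct.induction_on with
  | zero => simp
  | tmul u v => rw [Algebra.TensorProduct.tmul_mul_tmul, sq_tmul, sq_tmul]; rfl
  | add x y hx hy => rw [mul_add, map_add, hx, hy, map_add]

theorem sq_C_succ (ψ : R →ₗ[ℚ] ℚ) (k : ℕ) (t : R ⊗[ℚ] R) :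
    sq ψ (D.C ^ (k + 1) * t) = ∑ i, sq (ψ ∘ₗ LinearMap.mulLeft ℚ (D.x i)) (D.C ^ k * t) := by
  rw [pow_succ', mul_assoc]
  conv_lhs => rw [C, Finset.sum_mul, map_sum]
  simp only [sq_mul]
  rfl

theorem sq_C_nonneg (k : ℕ) (ψ : R →ₗ[ℚ] ℚ) : 0 ≤ sq ψ (D.C ^ k * 1) := by
  induction k generalizing ψ with
  | zero =>
    rw [pow_zero, one_mul, Algebra.TensorProduct.one_def, sq_tmul]
    exact mul_self_nonneg _
  | succ k ih =>
    rw [sq_C_succ]
    exact Finset.sum_nonneg fun i _ => ih _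

theorem sq_C_pos (l : List (Fin 8)) (ψ : R →ₗ[ℚ] ℚ) (h : ψ (l.map D.x).prod ≠ 0) :
    0 < sq ψ (D.C ^ l.length * 1) := by
  induction l generalizing ψ with
  | nil =>
    rw [List.length_nil, pow_zero, one_mul, Algebra.TensorProduct.one_def, sq_tmul]
    exact mul_self_pos.mpr (by simpa using h)
  | cons i l ih =>
    rw [List.length_cons, sq_C_succ]
    refine Finset.sum_pos' (fun j _ => D.sq_C_nonneg _ _) ⟨i, Finset.mem_univ i, ih _ ?_⟩
    simpa using h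

theorem sq_C_zero (k : ℕ) (ψ : R →ₗ[ℚ] ℚ)
    (h : ∀ l : List (Fin 8), l.length = k → ψ (l.map D.x).prod = 0) :
    sq ψ (D.C ^ k * 1) = 0 := by
  induction k generalizing ψ with
  | zero =>
    rw [pow_zero, one_mul, Algebra.TensorProduct.one_def, sq_tmul]
    have := h [] rfl
    simp only [List.map_nil, List.prod_nil] at this
    rw [this, zero_mul]
  | succ k ih =>
    rw [sq_C_succ]
    refine Finset.sum_eq_zero fun i _ => ih _ fun l hl => ?_
    simpa using h (i :: l) (by simp [hl])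

theorem sq_C_high (k : ℕ) (ψ : R →ₗ[ℚ] ℚ) (h : ∀ r ∈ D.B k, ψ r = 0) (t : R ⊗[ℚ] R) :
    sq ψ (D.C ^ k * t) = 0 := by
  induction k generalizing ψ with
  | zero =>
    have : ψ = 0 := LinearMap.ext fun r => h r (D.B_zero r)
    simp [this, sq]
  | succ k ih =>
    rw [sq_C_succ]
    refine Finset.sum_eq_zero fun i _ => ih _ fun r hr => ?_
    have := D.B_mul 1 k _ (D.x_mem i) _ hr
    rw [add_comm] at this
    exact h _ this

theorem sq_low (t : R ⊗[ℚ] R) : ∃ n, sq (D.ψ n) t = 0 := by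
  obtain ⟨N, hN⟩ := D.τ_ev2 t
  refine ⟨N + 1, ?_⟩
  rw [← hN N le_rfl]
  generalize t = s
  induction s using TensorProduct.induction_on with
  | zero => simp
  | tmul a b => rw [TensorProduct.map_tmul, sq_tmul, D.ψ_τ _ _ (Nat.lt_succ_self N), zero_mul]
  | add x y hx hy => rw [map_add, map_add, hx, hy, add_zero]

theorem geom {S : Type} [Ring S] [Algebra ℚ S] (c r : S) (q : ℚ) (h : r = 1 + q • (c * r))
    (n : ℕ) : r = ∑ k ∈ Finset.range n, q ^ k • (c ^ k * 1) + q ^ n • (c ^ n * r) := by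
  induction n with
  | zero => simp
  | succ n ih =>
    rw [Finset.sum_range_succ, add_assoc]
    have : q ^ n • (c ^ n * 1) + q ^ (n + 1) • (c ^ (n + 1) * r) = q ^ n • (c ^ n * r) := by
      conv_rhs => rw [h]
      rw [mul_add, smul_add, mul_smul_comm, smul_smul, pow_succ, pow_succ, mul_assoc]
    rw [this]
    exact ih

theorem not_inv (r : R ⊗[ℚ] R) : (∑ p, Tri.val (D.e p)) * r ≠ 1 := by
  intro h
  rw [sum_e, add_mul, smul_mul_assoc, smul_mul_assoc, one_mul] at h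
  have h1 : (16 : ℚ) • r = 1 + (-1 / 8 : ℚ) • (D.C * ((16 : ℚ) • r)) := by
    rw [← h, mul_smul_comm]
    module
  obtain ⟨n, hn⟩ := D.sq_low ((16 : ℚ) • r)
  have h2 := congrArg (sq (D.ψ n)) (geom D.C _ _ h1 (n + 1))
  obtain ⟨l, hl, hl'⟩ := D.ψ_ne n
  have h3 := D.sq_C_pos l _ hl'
  rw [hl] at h3
  rw [hn, map_add, map_smul, D.sq_C_high (n + 1) _ (D.ψ_B n), Finset.sum_range_succ, map_add,
    map_smul, map_sum, Finset.sum_eq_zero] at h2
  · simp only [smul_eq_mul, mul_zero, add_zero, zero_add] at h2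
    have h4 : (-1 / 8 : ℚ) ^ n ≠ 0 := pow_ne_zero _ (by norm_num)
    exact (mul_ne_zero h4 h3.ne') h2.symm
  · intro k hk
    rw [map_smul, D.sq_C_zero k _ (fun l hl => D.ψ_short n l (by
      have := Finset.mem_range.mp hk
      omega)), smul_zero]

end GSData

end

end Pool.Agent.MP_f7bb97_al.H87
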